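import Pool.Agent.Results.MP_321647_nt.CandidateRadicands
import Pool.Agent.V1161.CGP.Fin

/-!
# Products of tiny primes in every ideal class, and a majority test for unique factorisation

For every `a > 2`, `0 < δ ≤ 1/100` and 100% of the candidates `d` (radicands that genus theory allows for unique
factorisation), 100% of the primes, of the products of two primes `≡ 3 mod 4` and of the doubles of primes
`≡ 3 mod 4`, the field `K` of the square root of `d` has the following property for suitable `y` and `k` with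
`2 y ≤ (log d)^a`, `2 k ≤ log d / log log d`.  Call `k`-product an ideal whose norm is a product of `k` distinct
primes of `(y, 2y]`.

* For every `r ≥ 2` and EVERY ideal class, the proportion of the `r`-tuples of `k`-products with product in this
  class is `1 / h`, up to the relative error `δ^r`.
* For every subgroup of the class group of index `j` the proportion of the `k`-products with class in the subgroup
  differs from `1 / j` by at most `δ / √j`.
* The ring of integers of `K` is a unique factorisation domain if and only if more than 51% of the `k`-products are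
  principal.

The starting result `CandidateRadicands` has the equidistribution of the `k`-products in mean square over the
classes.
-/

set_option autoImplicit false

namespace Pool.Agent.Results.MP_321647_nt.ProductsInEveryClass

open Filter Finset NumberField
open scoped Classical

/-- The ideals of the ring of integers of `K` whose norm is a product of `k` distinct primes of the
interval `(y, 2y]`. -/
def KProduct (K : Type) [Field K] [NumberField K] (y k : ℕ) : Type :=
  {I : nonZeroDivisors (Ideal (𝓞 K)) //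
    ∃ s ∈ ((Finset.Ioc y (2 * y)).filter Nat.Prime).powersetCard k,
      Ideal.absNorm (I : Ideal (𝓞 K)) = ∏ p ∈ s, p}

/-- The number of the `k`-products. -/
noncomputable def total (K : Type) [Field K] [NumberField K] (y k : ℕ) : ℕ := Nat.card (KProduct K y k)

/-- The number of the `r`-tuples of `k`-products whose product has the class `C`. -/
noncomputable def tuples (K : Type) [Field K] [NumberField K] (y k r : ℕ) (C : ClassGroup (𝓞 K)) : ℕ :=
  Nat.card {f : Fin r → KProduct K y k // ClassGroup.mk0 (∏ i, (f i).1) = C}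

/-- The number of the `k`-products with class in the subgroup `H`. -/
noncomputable def inSubgroup (K : Type) [Field K] [NumberField K] (y k : ℕ)
    (H : Subgroup (ClassGroup (𝓞 K))) : ℕ :=
  Nat.card {I : KProduct K y k // ClassGroup.mk0 I.1 ∈ H}

/-- The number of the principal `k`-products. -/
noncomputable def principal (K : Type) [Field K] [NumberField K] (y k : ℕ) : ℕ :=
  Nat.card {I : KProduct K y k // (I.1 : Ideal (𝓞 K)).IsPrincipal}

/-- The property of the integer `d` in the theorem: the statements hold for every quadratic field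
containing a square root of `d`. -/
def Sharp (a δ : ℝ) (d : ℕ) : Prop :=
  ∀ (K : Type) [Field K] [NumberField K], Module.finrank ℚ K = 2 →
    (∃ x : K, x ^ 2 = (d : K)) → ∃ y k : ℕ, 2 * (y : ℝ) ≤ (Real.log d) ^ a ∧
      2 * (k : ℝ) ≤ Real.log d / Real.log (Real.log d) ∧ 0 < total K y k ∧
      (∀ r : ℕ, 2 ≤ r → ∀ C : ClassGroup (𝓞 K),
        |(tuples K y k r C : ℝ) / (total K y k : ℝ) ^ r - 1 / Nat.card (ClassGroup (𝓞 K))| ≤
          δ ^ r / Nat.card (ClassGroup (𝓞 K))) ∧
      (∀ H : Subgroup (ClassGroup (𝓞 K)),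
        |(inSubgroup K y k H : ℝ) / total K y k - 1 / H.index| ≤ δ / √(H.index : ℝ)) ∧
      (UniqueFactorizationMonoid (𝓞 K) ↔ (51 / 100 : ℝ) < (principal K y k : ℝ) / total K y k)

lemma fiber_finite (K : Type) [Field K] [NumberField K] (n : ℕ) :
    {I : nonZeroDivisors (Ideal (𝓞 K)) | Ideal.absNorm (I : Ideal (𝓞 K)) = n}.Finite := by
  have h := Ideal.finite_setOfPred_absNorm_eq (S := 𝓞 K) n
  exact Set.Finite.preimage (fun I _ J _ hIJ => Subtype.ext hIJ) h

instance kfinite (K : Type) [Field K] [NumberField K] (y k : ℕ) : Finite (KProduct K y k) := by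
  have h : {I : nonZeroDivisors (Ideal (𝓞 K)) |
      ∃ s ∈ ((Finset.Ioc y (2 * y)).filter Nat.Prime).powersetCard k,
        Ideal.absNorm (I : Ideal (𝓞 K)) = ∏ p ∈ s, p}.Finite := by
    have h2 : (⋃ s ∈ ((Finset.Ioc y (2 * y)).filter Nat.Prime).powersetCard k,
        {I : nonZeroDivisors (Ideal (𝓞 K)) | Ideal.absNorm (I : Ideal (𝓞 K)) = ∏ p ∈ s, p}).Finite :=
      Set.Finite.biUnion (Finset.finite_toSet _) fun s _ => fiber_finite K _
    refine h2.subset ?_
    rintro I ⟨s, hs, hI⟩
    rw [Set.mem_iUnion₂]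
    exact ⟨s, hs, hI⟩
  exact h.to_subtype

/-- the number of the `k`-products in a class -/
lemma one_eq (K : Type) [Field K] [NumberField K] (y k : ℕ) (C : ClassGroup (𝓞 K)) :
    Nat.card {I : KProduct K y k // ClassGroup.mk0 I.1 = C} = CandidateRadicands.cnt K y k C := by
  unfold CandidateRadicands.cnt
  have hfin : ∀ s : ((((Finset.Ioc y (2 * y)).filter Nat.Prime).powersetCard k : Finset (Finset ℕ)) : Type),
      Finite {I : nonZeroDivisors (Ideal (𝓞 K)) //
        Ideal.absNorm (I : Ideal (𝓞 K)) = ∏ p ∈ s.1, p ∧ ClassGroup.mk0 I = C} := by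
    intro s
    refine Set.Finite.to_subtype ((fiber_finite K (∏ p ∈ s.1, p)).subset ?_)
    rintro I ⟨h1, -⟩
    exact h1
  have hprime : ∀ s ∈ ((Finset.Ioc y (2 * y)).filter Nat.Prime).powersetCard k, ∀ p ∈ s, p.Prime := by
    intro s hs p hp
    exact (Finset.mem_filter.1 ((Finset.mem_powersetCard.1 hs).1 hp)).2
  have huniq : ∀ (I : nonZeroDivisors (Ideal (𝓞 K))) (s t : Finset ℕ),
      s ∈ ((Finset.Ioc y (2 * y)).filter Nat.Prime).powersetCard k →
      t ∈ ((Finset.Ioc y (2 * y)).filter Nat.Prime).powersetCard k →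
      Ideal.absNorm (I : Ideal (𝓞 K)) = ∏ p ∈ s, p → Ideal.absNorm (I : Ideal (𝓞 K)) = ∏ p ∈ t, p →
      s = t := by
    intro I s t hs ht h1 h2
    rw [← Nat.primeFactors_prod (hprime s hs), ← h1, h2, Nat.primeFactors_prod (hprime t ht)]
  obtain ⟨f, hf⟩ : ∃ f : {I : KProduct K y k // ClassGroup.mk0 I.1 = C} →
      ((((Finset.Ioc y (2 * y)).filter Nat.Prime).powersetCard k : Finset (Finset ℕ)) : Type),
      ∀ I, Ideal.absNorm ((I.1.1 : nonZeroDivisors (Ideal (𝓞 K))) : Ideal (𝓞 K)) =
        ∏ p ∈ (f I).1, p :=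
    ⟨fun I => ⟨I.1.2.choose, I.1.2.choose_spec.1⟩, fun I => I.1.2.choose_spec.2⟩
  have e : ∀ s : ((((Finset.Ioc y (2 * y)).filter Nat.Prime).powersetCard k : Finset (Finset ℕ)) : Type),
      {I : {I : KProduct K y k // ClassGroup.mk0 I.1 = C} // f I = s} ≃
        {I : nonZeroDivisors (Ideal (𝓞 K)) //
          Ideal.absNorm (I : Ideal (𝓞 K)) = ∏ p ∈ s.1, p ∧ ClassGroup.mk0 I = C} := fun s => {
    toFun := fun I => ⟨I.1.1.1, (hf I.1).trans (by rw [I.2]), I.1.2⟩
    invFun := fun I => ⟨⟨⟨I.1, s.1, s.2, I.2.1⟩, I.2.2⟩, by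
      apply Subtype.ext
      exact huniq I.1 _ _ (f _).2 s.2 (hf ⟨⟨I.1, s.1, s.2, I.2.1⟩, I.2.2⟩) I.2.1⟩
    left_inv := fun I => rfl
    right_inv := fun I => rfl }
  rw [← Nat.card_congr (Equiv.sigmaFiberEquiv f), Nat.card_sigma]
  rw [Finset.sum_congr rfl fun s _ => Nat.card_congr (e s)]
  exact Finset.sum_coe_sort (((Finset.Ioc y (2 * y)).filter Nat.Prime).powersetCard k)
    (fun s => Nat.card {I : nonZeroDivisors (Ideal (𝓞 K)) //
      Ideal.absNorm (I : Ideal (𝓞 K)) = ∏ p ∈ s, p ∧ ClassGroup.mk0 I = C})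

/-- from mean square equidistribution to the sharp statements -/
lemma sharp_of (K : Type) [Field K] [NumberField K] (y k : ℕ) {δ : ℝ} (hδ : 0 < δ) (hδ1 : δ ≤ 1 / 100)
    (h : CandidateRadicands.Equidistributed K y k (δ ^ 2)) : 0 < total K y k ∧
      (∀ r : ℕ, 2 ≤ r → ∀ C : ClassGroup (𝓞 K),
        |(tuples K y k r C : ℝ) / (total K y k : ℝ) ^ r - 1 / Nat.card (ClassGroup (𝓞 K))| ≤
          δ ^ r / Nat.card (ClassGroup (𝓞 K))) ∧
      (∀ H : Subgroup (ClassGroup (𝓞 K)),
        |(inSubgroup K y k H : ℝ) / total K y k - 1 / H.index| ≤ δ / √(H.index : ℝ)) ∧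
      (UniqueFactorizationMonoid (𝓞 K) ↔ (51 / 100 : ℝ) < (principal K y k : ℝ) / total K y k) := by
  have : Fintype (KProduct K y k) := Fintype.ofFinite _
  obtain ⟨φ, hφ⟩ : ∃ φ : KProduct K y k → ClassGroup (𝓞 K), φ = fun I => ClassGroup.mk0 I.1 := ⟨_, rfl⟩
  have hone : ∀ C, V1161.CGP.one φ C = CandidateRadicands.cnt K y k C := by
    intro C
    rw [← one_eq K y k C, hφ]
    rfl
  have htot : (total K y k : ℝ) = Fintype.card (KProduct K y k) := by
    unfold total
    rw [Nat.card_eq_fintype_card]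
  have hsum : ∑ C : ClassGroup (𝓞 K), CandidateRadicands.cnt K y k C = Fintype.card (KProduct K y k) := by
    have h1 := V1161.CGP.one_sum φ
    simp_rw [hone] at h1
    exact_mod_cast h1
  obtain ⟨h1, h2⟩ := h
  rw [hsum] at h1 h2
  obtain ⟨hh, hhd⟩ : ∃ hh : ℝ, hh = Fintype.card (ClassGroup (𝓞 K)) := ⟨_, rfl⟩
  have hh0 : 0 < hh := by rw [hhd]; exact_mod_cast Fintype.card_pos
  have hh1 : (1 : ℝ) ≤ hh := by rw [hhd]; exact_mod_cast Nat.succ_le_of_lt Fintype.card_pos
  have hcardG : (Nat.card (ClassGroup (𝓞 K)) : ℝ) = hh := by rw [hhd, Nat.card_eq_fintype_card]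
  have hT0 : (0 : ℝ) < Fintype.card (KProduct K y k) := by exact_mod_cast h1
  have hq : ∑ C, ((V1161.CGP.one φ C : ℝ) / Fintype.card (KProduct K y k) -
      1 / Fintype.card (ClassGroup (𝓞 K))) ^ 2 ≤ δ ^ 2 / Fintype.card (ClassGroup (𝓞 K)) := by
    simp_rw [hone]
    rw [hcardG] at h2
    rw [← hhd]
    rw [div_le_iff₀ hh0] at h2
    refine h2.trans (le_of_eq ?_)
    field_simp
  obtain ⟨hdev1, hdev2⟩ := V1161.CGP.deviation φ h1 hq hδ.le
  refine ⟨by unfold total; rw [Nat.card_eq_fintype_card]; exact h1, ?_, ?_⟩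
  · intro r hr C
    have h3 := hdev2 r hr C
    have e1 : tuples K y k r C = V1161.CGP.tup φ r C := by
      unfold tuples V1161.CGP.tup
      rw [hφ]
      simp only [map_prod]
    rw [e1, htot, hcardG, hhd]
    exact h3
  · have hsub : ∀ H : Subgroup (ClassGroup (𝓞 K)),
        |(inSubgroup K y k H : ℝ) / total K y k - 1 / H.index| ≤ δ / √(H.index : ℝ) := by
      intro H
      have hin : (inSubgroup K y k H : ℝ) =
          ∑ C ∈ Finset.univ.filter (fun C => C ∈ H), (V1161.CGP.one φ C : ℝ) := by
        have e2 : (inSubgroup K y k H : ℝ) = ∑ I : KProduct K y k, if φ I ∈ H then (1 : ℝ) else 0 := by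
          unfold inSubgroup
          rw [Nat.card_eq_fintype_card, Fintype.card_subtype, Finset.card_filter, hφ]
          push_cast
          rfl
        rw [e2, V1161.CGP.sum_one φ (fun C => if C ∈ H then (1 : ℝ) else 0), Finset.sum_filter]
        refine Finset.sum_congr rfl fun C _ => ?_
        split_ifs
        · rw [mul_one]
        · rw [mul_zero]
      obtain ⟨m, hm⟩ : ∃ m : ℝ, m = Nat.card H := ⟨_, rfl⟩
      obtain ⟨j, hj⟩ : ∃ j : ℝ, j = H.index := ⟨_, rfl⟩
      have hmj : m * j = hh := by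
        rw [hm, hj, ← hcardG]
        exact_mod_cast H.card_mul_index
      have hm0 : 0 < m := by rw [hm]; exact_mod_cast Nat.card_pos
      have hj0 : 0 < j := by
        rw [hj]
        exact_mod_cast Nat.pos_of_ne_zero H.index_ne_zero_of_finite
      have hmc : m = ((Finset.univ.filter (fun C => C ∈ H)).card : ℝ) := by
        rw [hm, Nat.card_eq_fintype_card, Fintype.card_subtype]
      have hdiff : (inSubgroup K y k H : ℝ) / total K y k - 1 / H.index =
          ∑ C ∈ Finset.univ.filter (fun C => C ∈ H),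
            ((V1161.CGP.one φ C : ℝ) / Fintype.card (KProduct K y k) -
              1 / Fintype.card (ClassGroup (𝓞 K))) := by
        rw [Finset.sum_sub_distrib, ← Finset.sum_div, ← hin, Finset.sum_const, nsmul_eq_mul, ← hmc,
          ← hhd, htot, ← hj, ← hmj]
        congr 1
        field_simp
      rw [hdiff]
      have hcs : (∑ C ∈ Finset.univ.filter (fun C => C ∈ H),
            ((V1161.CGP.one φ C : ℝ) / Fintype.card (KProduct K y k) -
              1 / Fintype.card (ClassGroup (𝓞 K)))) ^ 2 ≤ m * (δ ^ 2 / hh) := by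
        refine (sq_sum_le_card_mul_sum_sq).trans ?_
        rw [← hmc]
        refine mul_le_mul_of_nonneg_left ?_ hm0.le
        rw [hhd]
        refine le_trans ?_ hq
        exact Finset.sum_le_sum_of_subset_of_nonneg (Finset.filter_subset _ _) fun C _ _ => sq_nonneg _
      refine Real.abs_le_sqrt hcs |>.trans (le_of_eq ?_)
      rw [← hj]
      have e3 : m * (δ ^ 2 / hh) = δ ^ 2 / j := by
        rw [← hmj]
        field_simp
      rw [e3, Real.sqrt_div (sq_nonneg _), Real.sqrt_sq hδ.le]
    refine ⟨hsub, ?_⟩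
    have hbot := hsub ⊥
    have hprin : principal K y k = inSubgroup K y k ⊥ := by
      unfold principal inSubgroup
      refine Nat.card_congr (Equiv.subtypeEquivRight fun I => ?_)
      rw [Subgroup.mem_bot, ClassGroup.mk0_eq_one_iff]
    rw [← hprin, Subgroup.index_bot, hcardG] at hbot
    rw [abs_le] at hbot
    obtain ⟨hb1, hb2⟩ := hbot
    have hsq : δ / √hh ≤ δ := div_le_self hδ.le (Real.one_le_sqrt.2 hh1)
    constructor
    · intro hU
      have := hU
      have : IsPrincipalIdealRing (𝓞 K) :=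
        IsPrincipalIdealRing.of_isDedekindDomain_of_uniqueFactorizationMonoid (𝓞 K)
      have hc : Fintype.card (ClassGroup (𝓞 K)) = 1 := card_classGroup_eq_one_iff.2 this
      have hhe : hh = 1 := by rw [hhd, hc, Nat.cast_one]
      rw [hhe] at hb1 hsq
      linarith
    · intro hlt
      have hc : Fintype.card (ClassGroup (𝓞 K)) = 1 := by
        by_contra hne
        have hpos : 0 < Fintype.card (ClassGroup (𝓞 K)) := Fintype.card_pos
        have h2 : (2 : ℝ) ≤ hh := by
          rw [hhd]
          exact_mod_cast (show 2 ≤ Fintype.card (ClassGroup (𝓞 K)) by omega)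
        have h3 : 1 / hh ≤ 1 / 2 := one_div_le_one_div_of_le (by norm_num) h2
        linarith
      have : IsPrincipalIdealRing (𝓞 K) := card_classGroup_eq_one_iff.1 hc
      infer_instance

/-- almost all, from one property to a weaker one -/
lemma mono {F G G' : ℕ → Prop} (h : CandidateRadicands.AlmostAll F G) (hG : ∀ d, G d → G' d) :
    CandidateRadicands.AlmostAll F G' := by
  unfold CandidateRadicands.AlmostAll at h ⊢
  refine squeeze_zero (fun X => by positivity) (fun X => ?_) h
  apply div_le_div_of_nonneg_right _ (Nat.cast_nonneg _)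
  apply Nat.cast_le.2
  apply Finset.card_le_card
  intro d hd
  rw [Finset.mem_filter] at hd ⊢
  exact ⟨hd.1, hd.2.1, fun hg => hd.2.2 (hG d hg)⟩

lemma sharp_good (a δ : ℝ) (hδ : 0 < δ) (hδ1 : δ ≤ 1 / 100) (d : ℕ)
    (h : CandidateRadicands.Good a (δ ^ 2) d) : Sharp a δ d := by
  intro K _ _ hK hx
  obtain ⟨⟨y, k, hy, hk, he⟩, -, -⟩ := h K hK hx
  obtain ⟨h1, h2, h3, h4⟩ := sharp_of K y k hδ hδ1 he
  exact ⟨y, k, hy, hk, h1, h2, h3, h4⟩

theorem result : ∀ a δ : ℝ, 2 < a → 0 < δ → δ ≤ 1 / 100 →
    CandidateRadicands.AlmostAll CandidateRadicands.Candidate (Sharp a δ) ∧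
    CandidateRadicands.AlmostAll CandidateRadicands.PrimePair (Sharp a δ) ∧
    CandidateRadicands.AlmostAll CandidateRadicands.TwicePrime (Sharp a δ) ∧
    CandidateRadicands.AlmostAll Nat.Prime (Sharp a δ) := by
  intro a δ ha hδ hδ1
  have hδ2 : 0 < δ ^ 2 := by positivity
  obtain ⟨h1, h2, h3⟩ := CandidateRadicands.result.2 a (δ ^ 2) ha hδ2
  refine ⟨mono h1 (sharp_good a δ hδ hδ1), mono h2 (sharp_good a δ hδ hδ1),
    mono h3 (sharp_good a δ hδ hδ1), mono ?_ (sharp_good a δ hδ hδ1)⟩
  exact CandidateRadicands.almost _ _ _ (by convert Pool.Agent.Y892.UF.prime_lim a (δ ^ 2) ha hδ2)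

end Pool.Agent.Results.MP_321647_nt.ProductsInEveryClass
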