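import Pool.Agent.V11318.RCi
import Pool.Agent.V11318.RCg
import Pool.Agent.Results.MP_321647_nt.ProductsInEveryClass

/-!
# Almost every set of tiny primes generates the class group, and a test of unique factorisation by a few primes

For every `a > 2` and 100% of the squarefree `d`, 100% of the candidates `d` (radicands that genus theory allows for
unique factorisation), 100% of the primes, of the products of two primes `≡ 3 mod 4` and of the doubles of primes
`≡ 3 mod 4`, the field `K` of the square root of `d` has the following property for a suitable `y` with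
`(log d)^a / 8 ≤ y ≤ (log d)^a / 2`.  Call *tiny* the primes of `(y, 2y]` that are norms of ideals; they are at least
one fifth of all primes of `(y, 2y]`.

* Every set of tiny primes that omits a proportion of less than `0.49 log log d / log d` of them generates the class
  group.
* If `t ≥ 5 (a + 1) (log d)^2 / log log d`, then at most the proportion `1 / d` of the `t`-tuples of tiny primes does
  not generate the class group.
* For every proper subgroup `H` of the class group, at least this proportion of the tiny primes is outside `H`.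
* For every `c > 0` and every subgroup of index at least `d^c`, the proportion of the tiny primes in `H` is at most
  `12 / (log d)^c`.
* The ring of integers of `K` is a unique factorisation domain if and only if the proportion of the tiny primes that
  are norms of non-principal ideals is at most `0.48 log log d / log d`.

The starting results and `ProductsInEveryClass` have products of about `log d / log log d` tiny primes, and the test of
unique factorisation by ALL primes of norm at most `(log d)^a`.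
-/

set_option autoImplicit false

namespace Pool.Agent.Results.MP_321647_nt.MostTinyPrimesGenerate

open Filter Finset NumberField
open scoped Classical
open Pool.Agent.V11318.RB Pool.Agent.Results.MP_321647_nt.ProductsInEveryClass

/-- The proportion `log log d / log d`. -/
noncomputable def prop (d : ℕ) : ℝ := Real.log (Real.log d) / Real.log d

/-- The property of the integer `d` in the theorem; `tiny K y` is the set of the primes of `(y, 2y]` that are norms
of ideals, `outside K y H` the set of those that are norms of ideals with class outside the subgroup `H`,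
`Generates K T`: the ideals with norm in the set `T` generate the class group, `badTuples K y t`: the number of the
`t`-tuples of tiny primes that do not generate the class group. -/
def Robust (a : ℝ) (d : ℕ) : Prop :=
  ∀ (K : Type) [Field K] [NumberField K], Module.finrank ℚ K = 2 →
    (∃ x : K, x ^ 2 = (d : K)) → ∃ y : ℕ, (Real.log d) ^ a ≤ 8 * (y : ℝ) ∧
      2 * (y : ℝ) ≤ (Real.log d) ^ a ∧
      ((Finset.Ioc y (2 * y)).filter Nat.Prime).card ≤ 5 * (tiny K y).card ∧
      (∀ T ⊆ tiny K y, ((tiny K y \ T).card : ℝ) < 49 / 100 * prop d * (tiny K y).card →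
        Generates K T) ∧
      (∀ t : ℕ, 5 * (a + 1) * (Real.log d) ^ 2 / Real.log (Real.log d) ≤ t →
        (badTuples K y t : ℝ) ≤ 1 / d * (tiny K y).card ^ t) ∧
      (∀ H : Subgroup (ClassGroup (𝓞 K)), H ≠ ⊤ →
        49 / 100 * prop d * (tiny K y).card ≤ ((outside K y H).card : ℝ)) ∧
      (∀ c : ℝ, 0 < c → ∀ H : Subgroup (ClassGroup (𝓞 K)), (d : ℝ) ^ c ≤ H.index →
        ((tiny K y \ outside K y H).card : ℝ) ≤ 12 / (Real.log d) ^ c * (tiny K y).card) ∧
      (UniqueFactorizationMonoid (𝓞 K) ↔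
        ((outside K y ⊥).card : ℝ) ≤ 48 / 100 * prop d * (tiny K y).card)

lemma outside_sub (K : Type) [Field K] [NumberField K] (y : ℕ) (H : Subgroup (ClassGroup (𝓞 K))) :
    outside K y H ⊆ tiny K y := by
  intro q hq
  obtain ⟨h1, h2, I, h3, -⟩ := mem_filter.1 hq
  exact mem_filter.2 ⟨h1, h2, I, h3⟩

theorem robust_of (K : Type) [Field K] [NumberField K] (hK : Module.finrank ℚ K = 2) (d y k N : ℕ)
    (a : ℝ) (ha : 0 ≤ a) (hy : 2 * (y : ℝ) ≤ (Real.log d) ^ a)
    (hd : 1 < d) (hk : 1 ≤ k) (hkN : k ≤ N)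
    (hkd : 2 * (k : ℝ) ≤ Real.log d / Real.log (Real.log d))
    (hT : N.choose k ≤ 2 * total K y k)
    (he : CandidateRadicands.Equidistributed K y k ((1 / 100) ^ 2)) :
      N ≤ 5 * (tiny K y).card ∧
      (∀ T ⊆ tiny K y, ((tiny K y \ T).card : ℝ) < 49 / 100 * prop d * (tiny K y).card →
        Generates K T) ∧
      (∀ t : ℕ, 5 * (a + 1) * (Real.log d) ^ 2 / Real.log (Real.log d) ≤ t →
        (badTuples K y t : ℝ) ≤ 1 / d * (tiny K y).card ^ t) ∧
      (∀ H : Subgroup (ClassGroup (𝓞 K)), H ≠ ⊤ →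
        49 / 100 * prop d * (tiny K y).card ≤ ((outside K y H).card : ℝ)) ∧
      (∀ c : ℝ, 0 < c → ∀ H : Subgroup (ClassGroup (𝓞 K)), (d : ℝ) ^ c ≤ H.index →
        ((tiny K y \ outside K y H).card : ℝ) ≤ 12 / (Real.log d) ^ c * (tiny K y).card) ∧
      (UniqueFactorizationMonoid (𝓞 K) ↔
        ((outside K y ⊥).card : ℝ) ≤ 48 / 100 * prop d * (tiny K y).card) := by
  have hδ : (0 : ℝ) < 1 / 100 := by norm_num
  obtain ⟨h1, h2, h3, -⟩ := sharp_of K y k hδ le_rfl he
  have hd1 : (1 : ℝ) < d := by exact_mod_cast hd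
  have hl : 0 < Real.log d := Real.log_pos hd1
  have hk1 : (1 : ℝ) ≤ k := by exact_mod_cast hk
  have hll : 0 < Real.log (Real.log d) := by
    by_contra hneg
    rw [not_lt] at hneg
    have := div_nonpos_of_nonneg_of_nonpos hl.le hneg
    linarith
  have hprop : 0 < prop d := div_pos hll hl
  have hkp : 2 * (k : ℝ) * prop d ≤ 1 := by
    rw [le_div_iff₀ hll] at hkd
    unfold prop
    rw [← mul_div_assoc, div_le_one hl]
    exact hkd
  have hout : ∀ H : Subgroup (ClassGroup (𝓞 K)), H ≠ ⊤ →
      49 / 100 * prop d * (tiny K y).card ≤ ((outside K y H).card : ℝ) ∧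
        0 < (outside K y H).card := by
    intro H hH
    obtain ⟨h4, h5⟩ := outside_many hK y k H hH le_rfl h1 (h3 H)
    refine ⟨?_, h5⟩
    have ho : (0 : ℝ) ≤ (outside K y H).card := Nat.cast_nonneg _
    calc 49 / 100 * prop d * (tiny K y).card = (49 / 100 * (tiny K y).card) * prop d := by ring
      _ ≤ (2 * k * (outside K y H).card) * prop d := mul_le_mul_of_nonneg_right h4 hprop.le
      _ = (2 * k * prop d) * (outside K y H).card := by ring
      _ ≤ 1 * (outside K y H).card := mul_le_mul_of_nonneg_right hkp ho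
      _ = _ := one_mul _
  have hcl := card_le_sq y k (1 / 100) hδ le_rfl h2
  refine ⟨many_tiny hK y k N hk hkN hT, ?_, fun t ht => random_generate hK d y k a ha hd hk hkd hy hcl
    (fun H hH => (hout H hH).1) t ht, fun H hH => (hout H hH).1, ?_, ?_⟩
  · intro T _ hlt
    by_contra hgen
    obtain ⟨h4, -⟩ := hout _ hgen
    have h5 : outside K y (Subgroup.closure {C : ClassGroup (𝓞 K) |
        ∃ I : nonZeroDivisors (Ideal (𝓞 K)), Ideal.absNorm (I : Ideal (𝓞 K)) ∈ T ∧
          ClassGroup.mk0 I = C}) ⊆ tiny K y \ T := by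
      intro q hq
      refine mem_sdiff.2 ⟨outside_sub K y _ hq, fun hqT => ?_⟩
      obtain ⟨-, -, I, h6, h7⟩ := mem_filter.1 hq
      exact h7 (Subgroup.subset_closure ⟨I, h6 ▸ hqT, rfl⟩)
    have h6 : ((outside K y (Subgroup.closure {C : ClassGroup (𝓞 K) |
        ∃ I : nonZeroDivisors (Ideal (𝓞 K)), Ideal.absNorm (I : Ideal (𝓞 K)) ∈ T ∧
          ClassGroup.mk0 I = C})).card : ℝ) ≤ ((tiny K y \ T).card : ℝ) := by
      exact_mod_cast card_le_card h5
    linarith
  · intro c hc H hH
    obtain ⟨h4, h5⟩ := log_pow_le hd hk hkd c hc _ hH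
    exact inside_few hK y k H hδ le_rfl h1 (h3 H) hcl hk _ (Real.rpow_pos_of_pos h4 c) h5
  · constructor
    · intro hU
      have := hU
      have : IsPrincipalIdealRing (𝓞 K) :=
        IsPrincipalIdealRing.of_isDedekindDomain_of_uniqueFactorizationMonoid (𝓞 K)
      have h4 : outside K y ⊥ = ∅ := by
        rw [eq_empty_iff_forall_notMem]
        intro q hq
        obtain ⟨-, -, I, -, h7⟩ := mem_filter.1 hq
        apply h7
        rw [Subgroup.mem_bot, ClassGroup.mk0_eq_one_iff]
        exact IsPrincipalIdealRing.principal _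
      rw [h4, card_empty, Nat.cast_zero]
      positivity
    · intro hle
      have hc : Fintype.card (ClassGroup (𝓞 K)) = 1 := by
        by_contra hne
        have hbot : (⊥ : Subgroup (ClassGroup (𝓞 K))) ≠ ⊤ := by
          intro h
          apply hne
          rw [Fintype.card_eq_one_iff]
          refine ⟨1, fun x => ?_⟩
          have : x ∈ (⊥ : Subgroup (ClassGroup (𝓞 K))) := h ▸ Subgroup.mem_top x
          exact Subgroup.mem_bot.1 this
        obtain ⟨h4, h5⟩ := hout ⊥ hbot
        have h6 : 0 < (tiny K y).card := lt_of_lt_of_le h5 (card_le_card (outside_sub K y ⊥))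
        have h7 : (0 : ℝ) < (tiny K y).card := by exact_mod_cast h6
        have h8 : 0 < prop d * (tiny K y).card := mul_pos hprop h7
        nlinarith
      have : IsPrincipalIdealRing (𝓞 K) := card_classGroup_eq_one_iff.1 hc
      infer_instance

open Pool.Agent.H38R2.CG Pool.Agent.H38R2.CG2 Pool.Agent.H38R2.CG3 in
/-- the size of `y` -/
lemma y_ge (a : ℝ) (ha : 2 < a) : ∃ X1 : ℕ, ∀ X : ℕ, X1 ≤ X → ∀ d : ℝ, 1 < d →
    d ≤ 2 * X → (Real.log d) ^ a ≤ 8 * (yA a X : ℝ) := by
  have ha0 : 0 < a := by linarith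
  obtain ⟨q, hq⟩ : ∃ q : ℝ, q = (3 / 2 : ℝ) ^ (1 / a) - 1 := ⟨_, rfl⟩
  have hq0 : 0 < q := by
    rw [hq]
    have : (1 : ℝ) < (3 / 2 : ℝ) ^ (1 / a) := Real.one_lt_rpow (by norm_num) (by positivity)
    linarith
  have ht : Tendsto (fun X : ℕ => Real.log (X : ℝ)) atTop atTop :=
    Real.tendsto_log_atTop.comp tendsto_natCast_atTop_atTop
  obtain ⟨X2, hX2⟩ := Filter.eventually_atTop.1 (ht.eventually_ge_atTop (max (Real.log 2 / q) 16))
  refine ⟨max X2 1, fun X hX d hd hd2 => ?_⟩
  have h1 := hX2 X ((le_max_left _ _).trans hX)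
  have hX1 : (1 : ℝ) ≤ X := by exact_mod_cast (le_max_right _ _).trans hX
  obtain ⟨t, htd⟩ : ∃ t : ℝ, t = Real.log X := ⟨_, rfl⟩
  rw [← htd] at h1
  have h2 : Real.log 2 / q ≤ t := (le_max_left _ _).trans h1
  have h3 : (16 : ℝ) ≤ t := (le_max_right _ _).trans h1
  have h4 : Real.log d ≤ t * (3 / 2 : ℝ) ^ (1 / a) := by
    have e1 : Real.log d ≤ Real.log (2 * X) := Real.log_le_log (by linarith) hd2
    rw [Real.log_mul (by norm_num) (by linarith), ← htd] at e1
    rw [div_le_iff₀ hq0] at h2
    have e2 : (3 / 2 : ℝ) ^ (1 / a) = 1 + q := by rw [hq]; ring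
    rw [e2]
    linarith
  have h5 : (Real.log d) ^ a ≤ 3 / 2 * t ^ a := by
    calc (Real.log d) ^ a ≤ (t * (3 / 2 : ℝ) ^ (1 / a)) ^ a :=
          Real.rpow_le_rpow (Real.log_pos hd).le h4 ha0.le
      _ = t ^ a * (3 / 2 : ℝ) := by
          rw [Real.mul_rpow (by linarith) (by positivity), ← Real.rpow_mul (by norm_num)]
          rw [one_div_mul_cancel ha0.ne', Real.rpow_one]
      _ = _ := by ring
  have h6 : (16 : ℝ) ≤ t ^ a := by
    calc (16 : ℝ) ≤ t := h3
      _ = t ^ (1 : ℝ) := (Real.rpow_one t).symm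
      _ ≤ t ^ a := Real.rpow_le_rpow_of_exponent_le (by linarith) (by linarith)
  have h7 : t ^ a / 4 < (yA a X : ℝ) + 1 := by
    unfold yA
    rw [← htd]
    exact Nat.lt_floor_add_one _
  linarith

open Pool.Agent.H38R2.CG Pool.Agent.H38R2.CG2 Pool.Agent.H38R2.CG3 in
/-- the number of the `k`-products -/
lemma total_MD (K : Type) [Field K] [NumberField K] (D y k : ℕ) (hD : IsFund D) (hy : 2 ≤ y)
    (h2 : Module.finrank ℚ K = 2) (hK : NumberField.discr K = (D : ℤ)) :
    (total K y k : ℝ) = MD D ((PP y).powersetCard k) (fun _ => 1) := by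
  rw [total_eq]
  unfold MD
  push_cast
  refine sum_congr rfl fun s hs => ?_
  have hs1 : ∀ p ∈ s, p.Prime ∧ p ≠ 2 := by
    intro p hp
    have hs' : p ∈ (Finset.Ioc y (2 * y)).filter Nat.Prime := (mem_powersetCard.1 hs).1 hp
    rw [mem_filter, mem_Ioc] at hs'
    exact ⟨hs'.2, by omega⟩
  have h3 := T_N1 (T_SPL T_N0) K D hD h2 hK s hs1
  have h4 := wt_prod (K := K) s fun p hp => (hs1 p hp).1
  unfold prodS at h3
  rw [h4] at h3
  rw [one_mul]
  have h5 : ((∏ p ∈ s, wt K p : ℕ) : ℝ) = ((∏ p ∈ s, (1 + chi D p) : ℤ) : ℝ) := by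
    rw [← h3]
    push_cast
    rfl
  push_cast at h5
  exact h5

open Pool.Agent.H38R2.CG Pool.Agent.H38R2.CG2 Pool.Agent.H38R2.CG3 in
/-- the exceptional d have exceptional discriminants -/
theorem excBd_robust (a : ℝ) (ha : 2 < a) :
    Pool.Agent.V11318.RC.ExcBd a ((1 / 100) ^ 2) (fun d => ¬ Robust a d) := by
  obtain ⟨X1, hX1⟩ := params a ha
  obtain ⟨X2, hX2⟩ := T2_NB T_NB a ha 1 one_pos
  obtain ⟨X3, hX3⟩ := y_ge a ha
  refine ⟨max X1 (max X2 X3), fun X hX d hd1 hds hg hXD hDX => ?_⟩
  have hXa : X1 ≤ X := (le_max_left _ _).trans hX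
  have hXb : X2 ≤ X := (le_max_left _ _).trans ((le_max_right _ _).trans hX)
  have hXc : X3 ≤ X := (le_max_right _ _).trans ((le_max_right _ _).trans hX)
  have hfund := FINh.isFund_Dof hd1 hds
  refine ⟨hfund, ?_⟩
  have hd4 : (X : ℝ) / 4 ≤ d := by
    have h1 : X < 4 * d := lt_of_lt_of_le hXD (FINh.Dof_le d)
    have h2 : (X : ℝ) < 4 * d := by exact_mod_cast h1
    linarith
  have hd2 : (d : ℝ) ≤ 2 * X := by
    have h1 : d ≤ 2 * X := (le_Dof d).trans hDX
    exact_mod_cast h1
  have hd1r : (1 : ℝ) < d := by exact_mod_cast hd1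
  obtain ⟨hy, hk, hy2⟩ := hX1 X hXa d hd4 hd2
  have hy8 := hX3 X hXc d hd1r hd2
  obtain ⟨-, -, -, -, -, -, hNk, -⟩ := hX2 X hXb
  have hk1 : 1 ≤ kA a X := by unfold kA; omega
  have hkN : kA a X ≤ (PA a X).card := by nlinarith
  by_contra hb
  apply hg
  intro K iF iN hrank hx
  have hdisc : NumberField.discr K = ((FINh.Dof d : ℕ) : ℤ) := by
    rw [T_N0d K d hd1 hds hrank hx]
    unfold FINh.Dof
    split_ifs <;> simp
  have hb1 : ¬ Bd a ((1 / 100) ^ 2) X (FINh.Dof d) := fun h => hb (Or.inl h)
  have hb2 : ¬ MD (FINh.Dof d) (SA a X) (fun _ => 1) < 1 / 2 * NA a X := fun h => hb (Or.inr h)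
  have he : Equi K (yA a X) (kA a X) ((1 / 100) ^ 2) := by
    by_contra hne
    exact hb1 (bd_of_not_equi T_N0 (T_N1 (T_SPL T_N0)) Pool.Agent.Y892.UF.N3_true
      Pool.Agent.Y892.UF.N4_true T_KF (T_N5b T_KF Pool.Agent.Y892.UF.N4_true) (T_N6 T_KF)
      a _ X (FINh.Dof d) hy2 hfund K hrank hdisc hne)
  have hT : ((PA a X).card).choose (kA a X) ≤ 2 * total K (yA a X) (kA a X) := by
    rw [not_lt] at hb2
    have h5 := total_MD K (FINh.Dof d) (yA a X) (kA a X) hfund hy2 hrank hdisc
    have h6 : MD (FINh.Dof d) ((PP (yA a X)).powersetCard (kA a X)) (fun _ => 1) =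
        MD (FINh.Dof d) (SA a X) (fun _ => 1) := rfl
    rw [← h6, ← h5] at hb2
    unfold NA CA at hb2
    have h7 : (((PA a X).card).choose (kA a X) : ℝ) ≤ 2 * (total K (yA a X) (kA a X) : ℝ) := by
      linarith
    exact_mod_cast h7
  obtain ⟨r1, r2, r3, r4, r5, r6⟩ := robust_of K hrank d (yA a X) (kA a X) (PA a X).card a (by linarith) hy
    hd1 hk1 hkN hk hT he
  exact ⟨yA a X, hy8, hy, r1, r2, r3, r4, r5, r6⟩

/-- The proportion of the squarefree numbers from 2 up to `X` that do not have the property `G`, relative to all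
numbers up to `X`, tends to zero. -/
def AlmostAllSquarefree (G : ℕ → Prop) : Prop :=
  Tendsto (fun X : ℕ => (((Finset.Icc 2 X).filter (fun d => Squarefree d ∧ ¬ G d)).card : ℝ) / X)
    atTop (nhds 0)

open Pool.Agent.V11318.RC in
theorem almost {F : ℕ → Prop} (G : ℕ → Prop)
    (h : Tendsto (fun X : ℕ => (((Finset.Ioc 0 X).filter (fun D => F D ∧ ¬ G D)).card : ℝ) /
      (((Finset.Ioc 0 X).filter F).card : ℝ)) atTop (nhds 0)) : CandidateRadicands.AlmostAll F G := by
  unfold CandidateRadicands.AlmostAll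
  refine h.congr (fun X => ?_)
  have e1 : Finset.Ioc 0 X = Finset.Icc 1 X := by
    ext d
    rw [mem_Ioc, mem_Icc]
    omega
  rw [e1]

open Pool.Agent.V11318.RC in
/-- For every `a > 2`, the property `Robust a` holds for 100% of the squarefree integers, of the candidates, of the
products of two primes `≡ 3 mod 4`, of the doubles of primes `≡ 3 mod 4`, and of the primes. -/
theorem result : ∀ a : ℝ, 2 < a →
    AlmostAllSquarefree (Robust a) ∧
    CandidateRadicands.AlmostAll CandidateRadicands.Candidate (Robust a) ∧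
    CandidateRadicands.AlmostAll CandidateRadicands.PrimePair (Robust a) ∧
    CandidateRadicands.AlmostAll CandidateRadicands.TwicePrime (Robust a) ∧
    CandidateRadicands.AlmostAll Nat.Prime (Robust a) := by
  intro a ha
  have hE := excBd_robust a ha
  have h0 : (0 : ℝ) < (1 / 100) ^ 2 := by norm_num
  refine ⟨?_, ?_, ?_, ?_, ?_⟩
  · have h := all_lim a ha _ h0 _ hE
    unfold AlmostAllSquarefree
    convert h
  · apply almost
    have h := cand_lim4 a ha _ h0 _ hE
    convert h
    all_goals rfl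
  · apply almost
    have h := semi_lim4 a ha _ h0 _ hE
    convert h
    all_goals exact Iff.rfl
  · apply almost
    have h := two_lim4 a ha _ h0 _ hE
    convert h
    all_goals exact Iff.rfl
  · apply almost
    have h := prime_lim5 a ha _ h0 _ hE
    convert h

end Pool.Agent.Results.MP_321647_nt.MostTinyPrimesGenerate
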