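import Pool.Agent.Results.MP_321647_nt.TinyRelations
import Pool.Agent.V11318.SPfin
import Pool.Agent.V11318.SPdens

/-!
# Few small relations between tiny primes determine the class group and the units

Let `K` be the field of the square root of the squarefree integer `d ≥ 2`, with real embeddings `σ`, `τ`.  Fix
`2 < b < a` and put `B = (log d)^b`, `n = log d / log log d`.  A small element is an `x ≠ 0` in `K` such that the
fractional ideal `(x)` is a quotient of two products of at most `1 + n` prime ideals of norm at most `B` and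
`|log |σ x / τ x|| ≤ 5`; a `B`-unit is an element whose ideal is composed of prime ideals of norm at most `B`.

The starting result `TinyRelations` says that, for 100% of the `d`, all small elements together generate the group
of the `B`-units.  Here: at most `(log d)^a` small elements suffice, and they are quotients `(u + v √d) / w` of
integers of absolute value at most `d ^ (b + 2)`.  So, for 100% of the squarefree `d` and for 100% of the
candidates (the radicands which genus theory allows for unique factorisation), the class group and the units of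
`K` are given by polynomially many bits: the tiny primes are generators of the class group, the ideals of at most
`(log d)^a` explicit elements are defining relations, and unique factorisation holds if and only if there are at
most `(log d)^a` such elements whose ideals generate the group generated by the tiny primes, a certificate of
`O((log d)^(a + 1))` bits.
-/

set_option autoImplicit false

namespace Pool.Agent.Results.MP_321647_nt.ShortPresentations

open Filter Finset NumberField Pool.Agent.H951R5.AR
open Pool.Agent.Results.MP_321647_nt.TinyRelations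
open scoped Classical

/-- `x` is a small element: the fractional ideal `(x)` is a quotient of two products of at most `1 + n` prime
ideals of norm at most `B`, where `B = (log d)^b` and `n = log d / log log d`, and `|log |σ x / τ x|| ≤ 5`. -/
def Small (K : Type) [Field K] [NumberField K] (σ τ : K →+* ℝ) (b : ℝ) (d : ℕ) (x : Kˣ) : Prop :=
  x ∈ Gen K σ τ ((Real.log d) ^ b) (1 + Real.log d / Real.log (Real.log d))

/-- `x = (u + v s) / w` with integers `u`, `v`, `w` of absolute value at most `d ^ (b + 2)`. -/
def Explicit {K : Type} [Field K] (s : K) (b : ℝ) (d : ℕ) (x : Kˣ) : Prop :=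
  ∃ u v w : ℤ, w ≠ 0 ∧ (w : K) * (x : K) = (u : K) + (v : K) * s ∧
    |(u : ℝ)| ≤ (d : ℝ) ^ (b + 2) ∧ |(v : ℝ)| ≤ (d : ℝ) ^ (b + 2) ∧ |(w : ℝ)| ≤ (d : ℝ) ^ (b + 2)

/-- Every prime ideal of norm at most `B` is generated by a product of powers of members of `X`. -/
def Generates {K : Type} [Field K] [NumberField K] (B : ℝ) (X : Finset Kˣ) : Prop :=
  ∀ P : Ideal (𝓞 K), P.IsPrime → P ≠ ⊥ → ((Ideal.absNorm P : ℕ) : ℝ) ≤ B →
    ∃ x ∈ Subgroup.closure (X : Set Kˣ),
      FractionalIdeal.spanSingleton (nonZeroDivisors (𝓞 K)) ((x : Kˣ) : K) =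
        (P : FractionalIdeal (nonZeroDivisors (𝓞 K)) K)

/-- The property of the radicand `d`, for every quadratic field `K` with a square root `s` of `d` and real
embeddings `σ ≠ τ`; `B = (log d)^b`, `n = log d / log log d`.

There is a set `X` of at most `(log d)^a` explicit small elements such that
* every nonzero ideal is `x A` with `x ≠ 0` and a product `A` of at most `n` prime ideals of norm at most `B`;
* the group generated by `X` is the group of all `B`-units (`SUnit`: the ideal `(u)` is a quotient of two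
  products of prime ideals of norm at most `B`), so it contains all units, and the ideals `(x)`, `x ∈ X`, generate
  the group of the principal fractional ideals composed of prime ideals of norm at most `B`;
* unique factorisation holds in the ring of integers if and only if `X` generates all prime ideals of norm at
  most `B`.

Unique factorisation holds if and only if SOME set of at most `(log d)^a` explicit small elements generates all
prime ideals of norm at most `B`. -/
def FewRelations (a b : ℝ) (d : ℕ) : Prop :=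
  ∀ (K : Type) [Field K] [NumberField K], Module.finrank ℚ K = 2 →
    ∀ s : K, s ^ 2 = (d : K) → ∀ σ τ : K →+* ℝ, σ ≠ τ →
    (∃ X : Finset Kˣ, (X.card : ℝ) ≤ (Real.log d) ^ a ∧
      (∀ x ∈ X, Small K σ τ b d x ∧ Explicit s b d x) ∧
      (∀ I : Ideal (𝓞 K), I ≠ ⊥ → ∃ (A : Ideal (𝓞 K)) (x : K),
        SmallProd K ((Real.log d) ^ b) (Real.log d / Real.log (Real.log d)) A ∧ x ≠ 0 ∧
        FractionalIdeal.spanSingleton (nonZeroDivisors (𝓞 K)) x *
          (A : FractionalIdeal (nonZeroDivisors (𝓞 K)) K) = I) ∧
      (∀ u : Kˣ, u ∈ Subgroup.closure (X : Set Kˣ) ↔ u ∈ SUnit K ((Real.log d) ^ b)) ∧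
      (UniqueFactorizationMonoid (𝓞 K) ↔ Generates ((Real.log d) ^ b) X)) ∧
    (UniqueFactorizationMonoid (𝓞 K) ↔
      ∃ Y : Finset Kˣ, (Y.card : ℝ) ≤ (Real.log d) ^ a ∧
        (∀ x ∈ Y, Small K σ τ b d x ∧ Explicit s b d x) ∧ Generates ((Real.log d) ^ b) Y)

theorem few (a b : ℝ) (hb : 2 < b) (hab : b < a) :
    ∃ d0 : ℕ, ∀ d : ℕ, d0 ≤ d → 2 ≤ d → Squarefree d → GoodAR b d → FewRelations a b d := by
  obtain ⟨d0, hd0⟩ := Pool.Agent.V11318.SP.few_of_good a b hb hab
  refine ⟨d0, fun d hd hd2 hsq hgood K _ _ h2 s hs σ τ hne => ?_⟩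
  obtain ⟨X, hX1, hX2, hX3, hX4, hX5⟩ := hd0 d hd hd2 hsq hgood K h2 s hs σ τ hne
  obtain ⟨hcov, -, -⟩ := hgood K h2 ⟨s, hs⟩ σ τ hne
  have hsmall : ∀ x ∈ X, Small K σ τ b d x ∧ Explicit s b d x := fun x hx => ⟨hX2 x hx, hX3 x hx⟩
  refine ⟨⟨X, hX1, hsmall, ?_, hX4, hX5⟩, ⟨fun h => ⟨X, hX1, hsmall, hX5.1 h⟩, ?_⟩⟩
  · intro I hI
    obtain ⟨A, x, h1, h3, h4, -⟩ := hcov I hI 0
    exact ⟨A, x, h1, h3.ne, h4⟩
  · rintro ⟨Y, -, hY2, hY3⟩
    refine hX5.2 fun P hP hP0 hPB => ?_
    obtain ⟨x, hx, hxP⟩ := hY3 P hP hP0 hPB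
    refine ⟨x, ?_, hxP⟩
    rw [hX4 x]
    exact Pool.Agent.V11318.SP.sunit_of_closure
      (Subgroup.closure_mono (fun y hy => (hY2 y hy).1) hx)

/-- For all `2 < b < a` the property `FewRelations a b` holds for 100% of the squarefree integers `d ≥ 2`, for
100% of the candidates (primes, doubles of primes `3 mod 4`, products of two primes `3 mod 4`), for 100% of the
products of two primes `3 mod 4` and for 100% of the doubles of primes `3 mod 4`. -/
theorem result :
    ∀ a b : ℝ, 2 < b → b < a →
      Tendsto (fun X : ℕ => (((Finset.Icc 2 X).filter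
        (fun d => Squarefree d ∧ ¬ FewRelations a b d)).card : ℝ) / X) atTop (nhds 0) ∧
      AlmostAll Candidate (FewRelations a b) ∧ AlmostAll PrimePair (FewRelations a b) ∧
        AlmostAll TwicePrime (FewRelations a b) := by
  intro a b hb hab
  obtain ⟨d0, hd0⟩ := few a b hb hab
  obtain ⟨h1, h2, h3, h4⟩ := TinyRelations.result b hb
  have sqp : ∀ d : ℕ, PrimePair d → 2 ≤ d ∧ Squarefree d := by
    rintro d ⟨p, q, hp, hq, hpq, -, -, rfl⟩
    refine ⟨?_, ?_⟩
    · nlinarith [hp.two_le, hq.two_le]
    · rw [Nat.squarefree_mul ((Nat.coprime_primes hp hq).2 hpq.ne)]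
      exact ⟨hp.squarefree, hq.squarefree⟩
  have sqt : ∀ d : ℕ, TwicePrime d → 2 ≤ d ∧ Squarefree d := by
    rintro d ⟨p, hp, hp3, rfl⟩
    refine ⟨by have := hp.two_le; omega, ?_⟩
    have h2p : (2 : ℕ) ≠ p := by
      intro h
      rw [← h] at hp3
      norm_num at hp3
    rw [Nat.squarefree_mul ((Nat.coprime_primes Nat.prime_two hp).2 h2p)]
    exact ⟨Nat.prime_two.squarefree, hp.squarefree⟩
  have sqc : ∀ d : ℕ, Candidate d → 2 ≤ d ∧ Squarefree d := by
    rintro d (h | h | h)
    · exact ⟨h.two_le, h.squarefree⟩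
    · exact sqt d h
    · exact sqp d h
  have infp : ∀ n, ∃ d > n, PrimePair d := by
    intro n
    obtain ⟨q, hq, hqp, hq3⟩ := Pool.Agent.V11318.SP.prime_three (n + 3)
    exact ⟨3 * q, by omega, 3, q, Nat.prime_three, hqp, by omega, rfl, hq3, rfl⟩
  have inft : ∀ n, ∃ d > n, TwicePrime d := by
    intro n
    obtain ⟨q, hq, hqp, hq3⟩ := Pool.Agent.V11318.SP.prime_three n
    exact ⟨2 * q, by omega, q, hqp, hq3, rfl⟩
  have infc : ∀ n, ∃ d > n, Candidate d := by
    intro n
    obtain ⟨q, hq, hqp, -⟩ := Pool.Agent.V11318.SP.prime_three n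
    exact ⟨q, hq, Or.inl hqp⟩
  refine ⟨?_, ?_, ?_, ?_⟩
  · exact Pool.Agent.V11318.SP.almost_sqfree _ _ h1 d0 fun d hd hd2 hsq hg => hd0 d hd hd2 hsq hg
  · exact Pool.Agent.V11318.SP.almost_of_large _ _ _ infc h2 d0
      fun d hd hF hg => hd0 d hd (sqc d hF).1 (sqc d hF).2 hg
  · exact Pool.Agent.V11318.SP.almost_of_large _ _ _ infp h3 d0
      fun d hd hF hg => hd0 d hd (sqp d hF).1 (sqp d hF).2 hg
  · exact Pool.Agent.V11318.SP.almost_of_large _ _ _ inft h4 d0
      fun d hd hF hg => hd0 d hd (sqt d hF).1 (sqt d hF).2 hg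

end Pool.Agent.Results.MP_321647_nt.ShortPresentations
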