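import Pool.Agent.V1110.SpA
import Pool.Agent.Results.MP_321647_nt.ProductsInEveryClass
import Pool.Agent.Results.MP_321647_nt.TinyRelations

/-!
# Real quadratic fields whose radicands are the primes and candidates among `⌊α n ^ c⌋`

Let `c > 1` be a real number. For all real `α > 0` outside a set of Hausdorff dimension smaller than one
the results of the starting files on the ideal class groups and the units of real quadratic fields for
100% of the radicands hold for 100% of the primes, also of the products of two primes `≡ 3 mod 4`, of the doubles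
of primes `≡ 3 mod 4` and of all candidates (the radicands that genus theory allows for unique
factorisation), among the terms `t_n = ⌊α n ^ c⌋`, although there are only about `X ^ (1 / c)` terms up to
`X`. There are at least `b N / log N` such `n ≤ N`.
-/

set_option autoImplicit false

namespace Pool.Agent.Results.MP_321647_nt.SparseRadicands

open Filter Finset
open Pool.Agent.V1110.SpA (cnt seqCnt)
open CandidateRadicands (Candidate PrimePair TwicePrime AlmostAll Good)
open ProductsInEveryClass (Sharp)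
open Pool.Agent.H951R5.AR (GoodAR)

/-- the terms of the sequence -/
noncomputable def term (α c : ℝ) (n : ℕ) : ℕ := ⌊α * (n : ℝ) ^ c⌋₊

open Classical in
/-- the number of the `1 ≤ n ≤ N` for which the term `t_n` has the property `F` -/
noncomputable def count (α c : ℝ) (F : ℕ → Prop) (N : ℕ) : ℕ :=
  ((Icc 1 N).filter (fun n => F (term α c n))).card

/-- At least `b N / log N` of the terms `t_n`, `n ≤ N`, have the property `F`, for some `b > 0` and all
large `N`, and the proportion of those without the property `G` among them tends to zero. -/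
def AlmostAllTerms (α c : ℝ) (F G : ℕ → Prop) : Prop :=
  (∃ b : ℝ, 0 < b ∧ ∃ N₀ : ℕ, ∀ N : ℕ, N₀ ≤ N → b * N / Real.log N ≤ count α c F N) ∧
  Tendsto (fun N : ℕ => (count α c (fun d => F d ∧ ¬ G d) N : ℝ) / count α c F N) atTop (nhds 0)

/-- the properties of the starting results `CandidateRadicands`, `TinyRelations` and of
`ProductsInEveryClass` -/
def AllThree (a δ : ℝ) (d : ℕ) : Prop := Good a δ d ∧ GoodAR a d ∧ Sharp a δ d

open Classical in
lemma and_lim {F G G' : ℕ → Prop} (h : AlmostAll F G) (h' : AlmostAll F G') :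
    AlmostAll F (fun d => G d ∧ G' d) := by
  unfold CandidateRadicands.AlmostAll at h h' ⊢
  have h2 := h.add h'
  rw [add_zero] at h2
  refine squeeze_zero (fun X => by positivity) (fun X => ?_) h2
  rw [← add_div]
  apply div_le_div_of_nonneg_right _ (Nat.cast_nonneg _)
  rw [← Nat.cast_add]
  apply Nat.cast_le.2
  refine le_trans (card_le_card ?_) (card_union_le _ _)
  intro d hd
  simp only [mem_filter, mem_union] at hd ⊢
  obtain ⟨h1, h3, h4⟩ := hd
  by_cases hg : G d
  · right
    exact ⟨h1, h3, fun hg' => h4 ⟨hg, hg'⟩⟩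
  · left
    exact ⟨h1, h3, hg⟩

open Classical in
/-- lower bounds for the numbers of radicands -/
lemma lower_of (F : ℕ → Prop) (m : ℕ) (hm : 1 ≤ m)
    (h : ∀ p : ℕ, p.Prime → p % 4 = 3 → 3 < p → F (m * p)) :
    ∃ X₀ : ℕ, ∀ X : ℕ, X₀ ≤ X → 1 / (32 * (m : ℝ)) * X / (Real.log X) ^ (1 : ℝ) ≤ cnt {d | F d} X := by
  obtain ⟨x₀, hx₀⟩ := eventually_atTop.1 Pool.Agent.Y892.UF.P3_lower
  have hm0 : (0 : ℝ) < m := by exact_mod_cast hm
  have h1 := (Real.isLittleO_log_id_atTop.bound (show (0 : ℝ) < 1 / (32 * (m : ℝ)) by positivity))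
  obtain ⟨X₁, hX₁⟩ := eventually_atTop.1 (tendsto_natCast_atTop_atTop (R := ℝ) |>.eventually h1)
  refine ⟨max (max (m * (x₀ + 3)) X₁) 3, fun X hX => ?_⟩
  have g1 : m * (x₀ + 3) ≤ X := (le_max_left _ _).trans ((le_max_left _ _).trans hX)
  have g2 : X₁ ≤ X := (le_max_right _ _).trans ((le_max_left _ _).trans hX)
  have g3 : 3 ≤ X := (le_max_right _ _).trans hX
  have hXr : (3 : ℝ) ≤ X := by exact_mod_cast g3
  have hlog : 0 < Real.log X := Real.log_pos (by linarith)
  rw [Real.rpow_one]
  have h2 := hX₁ X g2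
  rw [Real.norm_eq_abs, abs_of_pos hlog, Real.norm_eq_abs, id, abs_of_pos (by linarith)] at h2
  have hq : x₀ + 3 ≤ X / m := (Nat.le_div_iff_mul_le (by omega)).2 (by rw [mul_comm]; exact g1)
  have h3 := hx₀ (X / m) (by omega)
  have hY : (X : ℝ) / (2 * m) ≤ ((X / m : ℕ) : ℝ) := by
    rw [div_le_iff₀ (by positivity)]
    have h4 := Nat.div_add_mod X m
    have h5 := Nat.mod_lt X (show 0 < m by omega)
    have h6 : m ≤ m * (X / m) := Nat.le_mul_of_pos_right m (by omega)
    have h7 : X ≤ (X / m) * (2 * m) := by nlinarith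
    exact_mod_cast h7
  have hY1 : (3 : ℝ) ≤ ((X / m : ℕ) : ℝ) := by exact_mod_cast (show 3 ≤ X / m by omega)
  have hYX : ((X / m : ℕ) : ℝ) ≤ X := by exact_mod_cast Nat.div_le_self X m
  have hlY : 0 < Real.log ((X / m : ℕ) : ℝ) := Real.log_pos (by linarith)
  have hlYX : Real.log ((X / m : ℕ) : ℝ) ≤ Real.log X := Real.log_le_log (by linarith) hYX
  have h8 : (X : ℝ) / (2 * m) / Real.log X ≤ ((X / m : ℕ) : ℝ) / Real.log ((X / m : ℕ) : ℝ) :=
    div_le_div₀ (by linarith) hY hlY hlYX
  have h9 : (Pool.Agent.Y892.UF.P3 (X / m)).card ≤ cnt {d | F d} X + 1 := by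
    have h10 : ((Pool.Agent.Y892.UF.P3 (X / m)).erase 3).card ≤ cnt {d | F d} X := by
      unfold Pool.Agent.V1110.SpA.cnt
      refine Finset.card_le_card_of_injOn (fun p => m * p) ?_ ?_
      · intro p hp
        rw [Finset.mem_coe, Finset.mem_erase, Pool.Agent.Y892.UF.mem_P3] at hp
        obtain ⟨hp3, hpX, hpp, hp4⟩ := hp
        have h11 : 3 < p := by
          rcases Nat.lt_or_ge 3 p with h12 | h12
          · exact h12
          · interval_cases p <;> omega
        rw [Finset.mem_coe, Finset.mem_filter, Finset.mem_Ioc]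
        refine ⟨⟨Nat.mul_pos (by omega) (by omega), ?_⟩, h p hpp hp4 h11⟩
        calc m * p ≤ m * (X / m) := Nat.mul_le_mul_left m hpX
          _ ≤ X := Nat.mul_div_le X m
      · intro p _ q _ hpq
        exact Nat.eq_of_mul_eq_mul_left (by omega) hpq
    have h13 : (Pool.Agent.Y892.UF.P3 (X / m)).card ≤ ((Pool.Agent.Y892.UF.P3 (X / m)).erase 3).card + 1 := by
      have := Finset.pred_card_le_card_erase (s := Pool.Agent.Y892.UF.P3 (X / m)) (a := 3)
      omega
    omega
  have h10 : ((Pool.Agent.Y892.UF.P3 (X / m)).card : ℝ) ≤ cnt {d | F d} X + 1 := by exact_mod_cast h9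
  have h11 : (1 : ℝ) ≤ 1 / (32 * (m : ℝ)) * X / Real.log X := by
    rw [le_div_iff₀ hlog, one_mul]
    exact h2
  have h12 : 1 / 8 * ((X : ℝ) / (2 * m) / Real.log X) = 2 * (1 / (32 * (m : ℝ)) * X / Real.log X) := by
    field_simp
    norm_num
  linarith

/-- the families of radicands -/
def fam : Fin 4 → ℕ → Prop := ![Nat.Prime, PrimePair, TwicePrime, Candidate]

lemma fam_lower (i : Fin 4) : ∃ b : ℝ, 0 < b ∧ ∃ X₀ : ℕ, ∀ X : ℕ, X₀ ≤ X →
    b * X / (Real.log X) ^ (1 : ℝ) ≤ cnt {d | fam i d} X := by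
  fin_cases i
  · exact ⟨_, by norm_num, lower_of Nat.Prime 1 le_rfl (fun p hp _ _ => by rw [one_mul]; exact hp)⟩
  · exact ⟨_, by norm_num, lower_of PrimePair 3 (by norm_num)
      (fun p hp h4 h3 => ⟨3, p, Nat.prime_three, hp, h3, by norm_num, h4, rfl⟩)⟩
  · exact ⟨_, by norm_num, lower_of TwicePrime 2 (by norm_num) (fun p hp h4 _ => ⟨p, hp, h4, rfl⟩)⟩
  · exact ⟨_, by norm_num, lower_of Candidate 1 le_rfl (fun p hp _ _ => by rw [one_mul]; exact Or.inl hp)⟩

lemma fam_lim (i : Fin 4) {a δ : ℝ} (ha : 2 < a) (hδ : 0 < δ) (hδ1 : δ ≤ 1 / 100) :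
    AlmostAll (fam i) (AllThree a δ) := by
  obtain ⟨g1, g2, g3⟩ := CandidateRadicands.result.2 a δ ha hδ
  have g4 : AlmostAll Nat.Prime (Good a δ) :=
    CandidateRadicands.almost _ _ _ (by convert Pool.Agent.Y892.UF.prime_lim a δ ha hδ)
  obtain ⟨-, r1, r2, r3⟩ := TinyRelations.result a ha
  have r4 : TinyRelations.AlmostAll Nat.Prime (GoodAR a) :=
    TinyRelations.almost _ _ (by convert Pool.Agent.Y892.UG.prime_limAR a ha)
  obtain ⟨s1, s2, s3, s4⟩ := ProductsInEveryClass.result a δ ha hδ hδ1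
  fin_cases i
  · exact and_lim g4 (and_lim r4 s4)
  · exact and_lim g2 (and_lim r2 s2)
  · exact and_lim g3 (and_lim r3 s3)
  · exact and_lim g1 (and_lim r1 s1)

lemma count_eq (α c : ℝ) (F : ℕ → Prop) (N : ℕ) : count α c F N = seqCnt α c {d | F d} N := rfl

open Classical in
lemma cnt_lim {F G : ℕ → Prop} (h : AlmostAll F G) :
    Tendsto (fun X : ℕ => (cnt {d | F d ∧ ¬ G d} X : ℝ) / cnt {d | F d} X) atTop (nhds 0) := by
  have e : ∀ (H : ℕ → Prop) [DecidablePred H] (X : ℕ),
      ((Finset.Icc 1 X).filter H).card = cnt {d | H d} X := by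
    intro H _ X
    unfold Pool.Agent.V1110.SpA.cnt
    congr 1
    ext d
    simp only [mem_filter, mem_Icc, mem_Ioc]
    exact Iff.rfl
  unfold CandidateRadicands.AlmostAll at h
  simpa only [e] using h

/-- **Theorem.** Let `c > 1` and let `T` be a countable set of pairs of real numbers. There is a set `E` of real
numbers of Hausdorff dimension smaller than one such that for all real `α > 0` outside `E`, with
`t_n = ⌊α n ^ c⌋`, for all `(a, δ)` in `T` with `a > 2`, `0 < δ ≤ 1 / 100`: at least `b N / log N` of the terms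
with `n ≤ N` are primes, for some `b > 0` and all large `N`, and 100% of these have the properties `Good a δ`,
`GoodAR a`, `Sharp a δ`. The same holds for the products of two different primes `≡ 3 mod 4`, for the doubles of
primes `≡ 3 mod 4` and for the candidates. -/
theorem result (c : ℝ) (hc : 1 < c) (T : Set (ℝ × ℝ)) (hT : T.Countable) :
    ∃ E : Set ℝ, dimH E < 1 ∧ ∀ α : ℝ, 0 < α → α ∉ E → ∀ a δ : ℝ, (a, δ) ∈ T → 2 < a → 0 < δ →
      δ ≤ 1 / 100 →
      AlmostAllTerms α c Nat.Prime (AllThree a δ) ∧ AlmostAllTerms α c PrimePair (AllThree a δ) ∧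
      AlmostAllTerms α c TwicePrime (AllThree a δ) ∧ AlmostAllTerms α c Candidate (AllThree a δ) := by
  have : Countable T := hT
  obtain ⟨E, hE, h⟩ := Pool.Agent.V1110.SpA.ratio c hc (ι := T × Fin 4)
    (fun k => {d | fam k.2 d ∧ ¬ AllThree k.1.1.1 k.1.1.2 d}) (fun k => {d | fam k.2 d})
  refine ⟨E, hE, fun α hα hαE a δ hT' ha hδ hδ1 => ?_⟩
  have key : ∀ i : Fin 4, AlmostAllTerms α c (fam i) (AllThree a δ) := by
    intro i
    obtain ⟨b, hb, hlow⟩ := fam_lower i
    obtain ⟨h1, b', hb', N₀, h2⟩ := h α hα hαE (⟨(a, δ), hT'⟩, i) 0 b 1 hb zero_le_one hlow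
      (cnt_lim (fam_lim i ha hδ hδ1))
    refine ⟨⟨b', hb', N₀, fun N hN => ?_⟩, h1⟩
    have h3 := h2 N hN
    rw [Real.rpow_one] at h3
    exact h3
  exact ⟨key 0, key 1, key 2, key 3⟩

end Pool.Agent.Results.MP_321647_nt.SparseRadicands
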